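import Pool.Agent.J6H72.BX.Defs

open Set Topology

namespace Pool.Agent.J6H72.BX

universe u v w

variable {T : Type w} [TopologicalSpace T]

/-- point-finite open families are interior-preserving -/
lemma CountablyMetacompact.ortho (h : CountablyMetacompact T) : CountablyOrthocompact T := by
  intro 𝒰 h𝒰 hc
  obtain ⟨𝒱, h1, h2, h3⟩ := h 𝒰 h𝒰 hc
  refine ⟨𝒱, h1, h2, ?_⟩
  intro 𝒲 h𝒲
  rw [isOpen_iff_forall_mem_open]
  intro x hx
  refine ⟨⋂₀ 𝒲, subset_rfl, ?_, hx⟩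
  have hfin : 𝒲.Finite := (h3 x).subset fun V hV => ⟨h𝒲 hV, hx V hV⟩
  exact hfin.isOpen_sInter fun V hV => h1.1 V (h𝒲 hV)

lemma Metacompact.count (h : Metacompact T) : CountablyMetacompact T :=
  fun 𝒰 _ hc => h 𝒰 hc

/-- A criterion: open expansions. -/
lemma countablyMetacompact_of_expansion
    (h : ∀ U : ℕ → Set T, (∀ n, IsOpen (U n)) → Monotone U → (⋃ n, U n) = univ →
      ∃ G : ℕ → Set T, (∀ n, IsOpen (G n)) ∧ (∀ n, (U n)ᶜ ⊆ G n) ∧ (⋂ n, G n) = ∅) :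
    CountablyMetacompact T := by
  classical
  intro 𝒰 h𝒰 hc
  rcases 𝒰.eq_empty_or_nonempty with he | hne
  · refine ⟨𝒰, hc, fun V hV => ⟨V, hV, subset_rfl⟩, fun x => ?_⟩
    rw [he]
    simp [PointFiniteAt]
  · obtain ⟨u, hu⟩ := h𝒰.exists_eq_range hne
    have huo : ∀ n, IsOpen (u n) := fun n => hc.1 _ (hu ▸ mem_range_self n)
    have hcov : (⋃ n, u n) = univ := by
      have h0 := hc.2
      rw [hu, sUnion_range] at h0
      exact h0
    obtain ⟨G, hG1, hG2, hG3⟩ := h (fun n => ⋃ m ∈ Finset.range (n + 1), u m)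
      (fun n => isOpen_biUnion fun m _ => huo m)
      (by
        intro a b hab x hx
        simp only [mem_iUnion, Finset.mem_range] at hx ⊢
        obtain ⟨m, hm, hx⟩ := hx
        exact ⟨m, by omega, hx⟩)
      (by
        rw [eq_univ_iff_forall]
        intro x
        have hx : x ∈ ⋃ n, u n := by rw [hcov]; trivial
        obtain ⟨n, hn⟩ := mem_iUnion.1 hx
        refine mem_iUnion.2 ⟨n, ?_⟩
        simp only [mem_iUnion, Finset.mem_range]
        exact ⟨n, by omega, hn⟩)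
    -- `H n = ⋂_{m < n} G m`
    let H : ℕ → Set T := fun n => ⋂ m ∈ Finset.range n, G m
    have hHo : ∀ n, IsOpen (H n) := fun n => isOpen_biInter_finset fun m _ => hG1 m
    let V : ℕ → Set T := fun n => u n ∩ H n
    refine ⟨range V, ⟨?_, ?_⟩, ?_, ?_⟩
    · rintro _ ⟨n, rfl⟩
      exact (huo n).inter (hHo n)
    · rw [sUnion_range, eq_univ_iff_forall]
      intro x
      have hx : ∃ n, x ∈ u n := by
        have : x ∈ ⋃ n, u n := by rw [hcov]; trivial
        exact mem_iUnion.1 this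
      refine mem_iUnion.2 ⟨Nat.find hx, Nat.find_spec hx, ?_⟩
      simp only [H, mem_iInter, Finset.mem_range]
      intro m hm
      apply hG2 m
      simp only [mem_compl_iff, mem_iUnion, Finset.mem_range, not_exists]
      intro k hk hxk
      exact Nat.find_min hx (by omega : k < Nat.find hx) hxk
    · rintro _ ⟨n, rfl⟩
      exact ⟨u n, hu ▸ mem_range_self n, inter_subset_left⟩
    · intro x
      have hx : x ∉ ⋂ n, G n := by rw [hG3]; exact notMem_empty x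
      rw [mem_iInter, not_forall] at hx
      obtain ⟨N, hN⟩ := hx
      apply ((Finset.range (N + 1)).finite_toSet.image V).subset
      rintro W ⟨⟨n, rfl⟩, hxn⟩
      refine ⟨n, ?_, rfl⟩
      simp only [Finset.coe_range, mem_Iio]
      by_contra hcon
      apply hN
      have h1 : x ∈ H n := hxn.2
      simp only [H, mem_iInter, Finset.mem_range] at h1
      exact h1 N (by omega)

lemma Subparacompact.count (h : Subparacompact T) : CountablyMetacompact T := by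
  classical
  apply countablyMetacompact_of_expansion
  intro U hU hmono hcov
  obtain ⟨𝓕, h1, h2, h3, h4⟩ := h (range U)
    ⟨by rintro _ ⟨n, rfl⟩; exact hU n, by rw [sUnion_range]; exact hcov⟩
  -- the union of those members of `𝓕 n` which are contained in `U m`
  let C : ℕ → ℕ → Set T := fun n m => ⋃₀ {F | F ∈ 𝓕 n ∧ F ⊆ U m}
  have hC : ∀ n m, IsClosed (C n m) := by
    intro n m
    rw [← isOpen_compl_iff, isOpen_iff_forall_mem_open]
    intro x hx
    obtain ⟨N, hN, hsub⟩ := h2 n x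
    obtain ⟨O, hO1, hO2, hO3⟩ := mem_nhds_iff.1 hN
    by_cases hex : ∃ F, F ∈ 𝓕 n ∧ F ⊆ U m ∧ (F ∩ N).Nonempty
    · obtain ⟨F, hF, hFU, hFN⟩ := hex
      have hxF : x ∉ F := fun hxF => hx ⟨F, ⟨hF, hFU⟩, hxF⟩
      refine ⟨O ∩ Fᶜ, ?_, hO2.inter (h1 n F hF).isOpen_compl, ⟨hO3, hxF⟩⟩
      rintro y ⟨hyO, hyF⟩ ⟨F', ⟨hF', -⟩, hyF'⟩
      have : F' = F := hsub ⟨hF', ⟨y, hyF', hO1 hyO⟩⟩ ⟨hF, hFN⟩
      exact hyF (this ▸ hyF')
    · refine ⟨O, ?_, hO2, hO3⟩
      rintro y hyO ⟨F', ⟨hF', hFU⟩, hyF'⟩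
      exact hex ⟨F', hF', hFU, ⟨y, hyF', hO1 hyO⟩⟩
  refine ⟨fun m => ⋂ n ∈ Finset.range (m + 1), (C n m)ᶜ, ?_, ?_, ?_⟩
  · intro m
    exact isOpen_biInter_finset fun n _ => (hC n m).isOpen_compl
  · intro m x hx
    simp only [mem_iInter, Finset.mem_range]
    rintro n - ⟨F, ⟨-, hF⟩, hxF⟩
    exact hx (hF hxF)
  · rw [eq_empty_iff_forall_notMem]
    intro x hx
    have hx' : x ∈ ⋃ n, ⋃₀ 𝓕 n := by rw [h4]; trivial
    obtain ⟨n, F, hF, hxF⟩ := mem_iUnion.1 hx'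
    obtain ⟨_, ⟨m, rfl⟩, hFm⟩ := h3 n F hF
    have h5 := mem_iInter.1 hx (max n m)
    simp only [mem_iInter, Finset.mem_range] at h5
    exact h5 n (by omega) ⟨F, ⟨hF, hFm.trans (hmono (le_max_right n m))⟩, hxF⟩

lemma Submetacompact.count (h : Submetacompact T) : CountablyMetacompact T := by
  classical
  apply countablyMetacompact_of_expansion
  intro U hU hmono hcov
  obtain ⟨𝒱, h1, h2⟩ := h (range U)
    ⟨by rintro _ ⟨n, rfl⟩; exact hU n, by rw [sUnion_range]; exact hcov⟩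
  -- the union of those members of `𝒱 k` which meet the complement of `U m`
  let D : ℕ → ℕ → Set T := fun k m => ⋃₀ {V | V ∈ 𝒱 k ∧ ¬ V ⊆ U m}
  have hD : ∀ k m, IsOpen (D k m) := by
    intro k m
    apply isOpen_sUnion
    rintro V ⟨hV, -⟩
    exact (h1 k).1.1 V hV
  refine ⟨fun m => ⋂ k ∈ Finset.range (m + 1), D k m, ?_, ?_, ?_⟩
  · intro m
    exact isOpen_biInter_finset fun k _ => hD k m
  · intro m x hx
    simp only [mem_iInter, Finset.mem_range]
    intro k _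
    have hx' : x ∈ ⋃₀ 𝒱 k := by rw [(h1 k).1.2]; trivial
    obtain ⟨V, hV, hxV⟩ := hx'
    exact ⟨V, ⟨hV, fun hVU => hx (hVU hxV)⟩, hxV⟩
  · rw [eq_empty_iff_forall_notMem]
    intro x hx
    obtain ⟨k, hk⟩ := h2 x
    -- every member of `𝒱 k` containing `x` lies in some `U m`
    have h3 : ∀ V : Set T, ∃ m, V ∈ 𝒱 k → V ⊆ U m := by
      intro V
      by_cases hV : V ∈ 𝒱 k
      · obtain ⟨_, ⟨m, rfl⟩, hm⟩ := (h1 k).2 V hV
        exact ⟨m, fun _ => hm⟩
      · exact ⟨0, fun h => absurd h hV⟩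
    choose m hm using h3
    obtain ⟨M, hM⟩ := (hk.image m).bddAbove
    have h5 := mem_iInter.1 hx (max k M)
    simp only [mem_iInter, Finset.mem_range] at h5
    obtain ⟨V, ⟨hV, hVU⟩, hxV⟩ := h5 k (by omega)
    apply hVU
    refine (hm V hV).trans (hmono ?_)
    exact (hM (mem_image_of_mem m ⟨hV, hxV⟩)).trans (le_max_right k M)

/-- The strongest of the negative statements is the first. -/
lemma noCovering (h : ¬ CountablyOrthocompact T) : NoCovering T := by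
  have h1 : ¬ CountablyMetacompact T := fun h' => h h'.ortho
  exact ⟨h, h1, fun h' => h1 h'.count, fun h' => h1 h'.count, fun h' => h1 h'.count⟩

/-- Countable orthocompactness is inherited by closed subspaces. -/
lemma CountablyOrthocompact.of_isClosedEmbedding {S : Type u} [TopologicalSpace S] {φ : S → T}
    (hφ : IsClosedEmbedding φ) (h : CountablyOrthocompact T) : CountablyOrthocompact S := by
  classical
  intro 𝒰 h𝒰 hc
  have hext : ∀ U : Set S, ∃ O : Set T, U ∈ 𝒰 → IsOpen O ∧ φ ⁻¹' O = U := by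
    intro U
    by_cases hU : U ∈ 𝒰
    · obtain ⟨O, hO1, hO2⟩ := hφ.isInducing.isOpen_iff.1 (hc.1 U hU)
      exact ⟨O, fun _ => ⟨hO1, hO2⟩⟩
    · exact ⟨∅, fun h => absurd h hU⟩
  choose O hO using hext
  obtain ⟨𝒱, h1, h2, h3⟩ := h (insert (range φ)ᶜ (O '' 𝒰)) ((h𝒰.image O).insert _)
    ⟨by
      rintro V (rfl | ⟨U, hU, rfl⟩)
      · exact hφ.isClosed_range.isOpen_compl
      · exact (hO U hU).1,
    by
      rw [eq_univ_iff_forall]
      intro x
      by_cases hx : x ∈ range φ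
      · obtain ⟨s, rfl⟩ := hx
        have hs : s ∈ ⋃₀ 𝒰 := by rw [hc.2]; trivial
        obtain ⟨U, hU, hsU⟩ := hs
        refine ⟨O U, Or.inr ⟨U, hU, rfl⟩, ?_⟩
        rw [← (hO U hU).2] at hsU
        exact hsU
      · exact ⟨_, Or.inl rfl, hx⟩⟩
  refine ⟨{W | (∃ V ∈ 𝒱, W = φ ⁻¹' V) ∧ W.Nonempty}, ⟨?_, ?_⟩, ?_, ?_⟩
  · rintro _ ⟨⟨V, hV, rfl⟩, -⟩
    exact (h1.1 V hV).preimage hφ.continuous
  · rw [eq_univ_iff_forall]
    intro s
    have hs : φ s ∈ ⋃₀ 𝒱 := by rw [h1.2]; trivial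
    obtain ⟨V, hV, hsV⟩ := hs
    exact ⟨φ ⁻¹' V, ⟨⟨V, hV, rfl⟩, ⟨s, hsV⟩⟩, hsV⟩
  · rintro _ ⟨⟨V, hV, rfl⟩, ⟨s, hs⟩⟩
    obtain ⟨W, hW, hVW⟩ := h2 V hV
    rcases hW with rfl | ⟨U, hU, rfl⟩
    · exact absurd (mem_range_self s) (hVW hs)
    · refine ⟨U, hU, ?_⟩
      rw [← (hO U hU).2]
      exact preimage_mono hVW
  · intro 𝒲 h𝒲
    have h4 : ⋂₀ 𝒲 = φ ⁻¹' (⋂₀ {V | V ∈ 𝒱 ∧ φ ⁻¹' V ∈ 𝒲}) := by
      ext s
      simp only [mem_sInter, mem_preimage, mem_ofPred_eq]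
      constructor
      · rintro h5 V ⟨-, hV⟩
        exact h5 _ hV
      · intro h5 W hW
        obtain ⟨⟨V, hV, rfl⟩, -⟩ := h𝒲 hW
        exact h5 V ⟨hV, hW⟩
    rw [h4]
    exact (h3 _ fun V hV => hV.1).preimage hφ.continuous

end Pool.Agent.J6H72.BX
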