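import Mathlib

/-!
# Box products and covering properties: definitions
-/

open Set Topology

namespace Pool.Agent.J6H72.BX

universe u v w

/-- The underlying set of the box product of a family of spaces: all choice functions. -/
def BoxProd {ι : Type u} (X : ι → Type v) : Type (max u v) := ∀ i, X i

/-- The box topology: generated by all products of open sets. -/
instance boxProdTopology {ι : Type u} (X : ι → Type v) [∀ i, TopologicalSpace (X i)] :
    TopologicalSpace (BoxProd X) :=
  TopologicalSpace.generateFrom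
    {s | ∃ U : ∀ i, Set (X i), (∀ i, IsOpen (U i)) ∧ s = {x : BoxProd X | ∀ i, x i ∈ U i}}

/-- `𝒰` is an open cover of the space `T`. -/
def IsOpenCover' {T : Type w} [TopologicalSpace T] (𝒰 : Set (Set T)) : Prop :=
  (∀ U ∈ 𝒰, IsOpen U) ∧ ⋃₀ 𝒰 = univ

/-- The family `𝒱` refines `𝒰`: every member of `𝒱` is contained in a member of `𝒰`. -/
def Refines {T : Type w} (𝒱 𝒰 : Set (Set T)) : Prop := ∀ V ∈ 𝒱, ∃ U ∈ 𝒰, V ⊆ U

/-- `𝒱` is point-finite at `x`: only finitely many members of `𝒱` contain `x`. -/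
def PointFiniteAt {T : Type w} (𝒱 : Set (Set T)) (x : T) : Prop := {V | V ∈ 𝒱 ∧ x ∈ V}.Finite

/-- The family `𝓕` is discrete: every point has a neighbourhood which meets at most one member
of `𝓕`. -/
def IsDiscreteFamily {T : Type w} [TopologicalSpace T] (𝓕 : Set (Set T)) : Prop :=
  ∀ x : T, ∃ N ∈ 𝓝 x, {F | F ∈ 𝓕 ∧ (F ∩ N).Nonempty}.Subsingleton

/-- Countably orthocompact: every countable open cover has an interior-preserving open
refinement, i.e. an open cover `𝒱` refining it such that the intersection of every subfamily of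
`𝒱` is open. -/
def CountablyOrthocompact (T : Type w) [TopologicalSpace T] : Prop :=
  ∀ 𝒰 : Set (Set T), 𝒰.Countable → IsOpenCover' 𝒰 →
    ∃ 𝒱 : Set (Set T), IsOpenCover' 𝒱 ∧ Refines 𝒱 𝒰 ∧ ∀ 𝒲, 𝒲 ⊆ 𝒱 → IsOpen (⋂₀ 𝒲)

/-- Countably metacompact: every countable open cover has a point-finite open refinement. -/
def CountablyMetacompact (T : Type w) [TopologicalSpace T] : Prop :=
  ∀ 𝒰 : Set (Set T), 𝒰.Countable → IsOpenCover' 𝒰 →
    ∃ 𝒱 : Set (Set T), IsOpenCover' 𝒱 ∧ Refines 𝒱 𝒰 ∧ ∀ x, PointFiniteAt 𝒱 x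

/-- Metacompact: every open cover has a point-finite open refinement. -/
def Metacompact (T : Type w) [TopologicalSpace T] : Prop :=
  ∀ 𝒰 : Set (Set T), IsOpenCover' 𝒰 →
    ∃ 𝒱 : Set (Set T), IsOpenCover' 𝒱 ∧ Refines 𝒱 𝒰 ∧ ∀ x, PointFiniteAt 𝒱 x

/-- Subparacompact: every open cover has a σ-discrete closed refinement, i.e. a sequence `𝓕 n` of
discrete families of closed sets, each refining the cover, which together cover the space. -/
def Subparacompact (T : Type w) [TopologicalSpace T] : Prop :=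
  ∀ 𝒰 : Set (Set T), IsOpenCover' 𝒰 →
    ∃ 𝓕 : ℕ → Set (Set T), (∀ n, ∀ F ∈ 𝓕 n, IsClosed F) ∧ (∀ n, IsDiscreteFamily (𝓕 n)) ∧
      (∀ n, Refines (𝓕 n) 𝒰) ∧ (⋃ n, ⋃₀ 𝓕 n) = univ

/-- Submetacompact (θ-refinable): every open cover has a sequence of open refinements `𝒱 n` (each
of them an open cover) such that every point `x` has an `n` for which `𝒱 n` is point-finite
at `x`. -/
def Submetacompact (T : Type w) [TopologicalSpace T] : Prop :=
  ∀ 𝒰 : Set (Set T), IsOpenCover' 𝒰 →
    ∃ 𝒱 : ℕ → Set (Set T), (∀ n, IsOpenCover' (𝒱 n) ∧ Refines (𝒱 n) 𝒰) ∧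
      ∀ x, ∃ n, PointFiniteAt (𝒱 n) x

/-- None of the covering properties considered here holds: the space is not countably
orthocompact, not countably metacompact, not metacompact, not subparacompact and not
submetacompact. -/
def NoCovering (T : Type w) [TopologicalSpace T] : Prop :=
  ¬ CountablyOrthocompact T ∧ ¬ CountablyMetacompact T ∧ ¬ Metacompact T ∧
    ¬ Subparacompact T ∧ ¬ Submetacompact T

end Pool.Agent.J6H72.BX
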