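import Pool.Agent.J6H72.BX.Cov
import Pool.Agent.BoxOrtho.Parts

open Set Topology Filter

namespace Pool.Agent.J6H72.BX

universe u v w

section box

variable {ι : Type u} {X : ι → Type v} [∀ i, TopologicalSpace (X i)]

lemma isOpen_box {U : ∀ i, Set (X i)} (hU : ∀ i, IsOpen (U i)) :
    IsOpen {x : BoxProd X | ∀ i, x i ∈ U i} :=
  TopologicalSpace.isOpen_generateFrom_of_mem ⟨U, hU, rfl⟩

lemma exists_box {O : Set (BoxProd X)} (hO : IsOpen O) {x : BoxProd X} (hx : x ∈ O) :
    ∃ U : ∀ i, Set (X i), (∀ i, IsOpen (U i)) ∧ (∀ i, x i ∈ U i) ∧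
      {y : BoxProd X | ∀ i, y i ∈ U i} ⊆ O := by
  have hb : TopologicalSpace.IsTopologicalBasis
      {s | ∃ U : ∀ i, Set (X i), (∀ i, IsOpen (U i)) ∧ s = {x : BoxProd X | ∀ i, x i ∈ U i}} := by
    refine ⟨?_, ?_, rfl⟩
    · rintro _ ⟨U, hU, rfl⟩ _ ⟨V, hV, rfl⟩ x ⟨h1, h2⟩
      refine ⟨_, ⟨fun i => U i ∩ V i, fun i => (hU i).inter (hV i), rfl⟩,
        fun i => ⟨h1 i, h2 i⟩, ?_⟩
      intro y hy
      exact ⟨fun i => (hy i).1, fun i => (hy i).2⟩
    · rw [eq_univ_iff_forall]
      intro x
      exact ⟨_, ⟨fun _ => univ, fun _ => isOpen_univ, rfl⟩, fun i => mem_univ _⟩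
  obtain ⟨_, ⟨U, hU, rfl⟩, h1, h2⟩ := hb.exists_subset_of_mem_open hx hO
  exact ⟨U, hU, h1, h2⟩

lemma isClosed_box {C : ∀ i, Set (X i)} (hC : ∀ i, IsClosed (C i)) :
    IsClosed {x : BoxProd X | ∀ i, x i ∈ C i} := by
  classical
  have h : {x : BoxProd X | ∀ i, x i ∈ C i} = ⋂ i, {x : BoxProd X | x i ∈ C i} := by
    ext x; simp
  rw [h]
  apply isClosed_iInter
  intro i
  have h2 : {x : BoxProd X | x i ∈ C i} =
      {x : BoxProd X | ∀ k, x k ∈ Function.update (fun k => (univ : Set (X k))) i (C i)ᶜ k}ᶜ := by
    ext x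
    simp only [mem_ofPred_eq, mem_compl_iff, not_forall]
    constructor
    · intro hx
      refine ⟨i, ?_⟩
      rw [Function.update_self]
      exact fun h => h hx
    · rintro ⟨k, hk⟩
      by_cases hki : k = i
      · subst hki
        rw [Function.update_self] at hk
        by_contra hcon
        exact hk hcon
      · rw [Function.update_of_ne hki] at hk
        exact absurd (mem_univ _) hk
  rw [h2]
  apply IsOpen.isClosed_compl
  apply isOpen_box
  intro k
  by_cases hki : k = i
  · subst hki
    rw [Function.update_self]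
    exact (hC _).isOpen_compl
  · rw [Function.update_of_ne hki]
    exact isOpen_univ

end box

/-- The countable box power of `ω + 1` (the order topology on `ℕ ∪ {∞}`). -/
abbrev WW : Type := BoxProd (fun _ : ℕ => ℕ∞)

section embedding

variable {ι : Type u} {X : ι → Type v} [∀ i, TopologicalSpace (X i)]
variable {A : Type w} [TopologicalSpace A]

open Classical in
/-- The map of `A × □^ω(ω+1)` to the box product given by an embedding `e` of `A` into the factor
`i₀` and maps `E i` of `ω + 1` to the other factors; the factor `i` uses the coordinate `k i`. -/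
noncomputable def Phi (i₀ : ι) (e : A → X i₀) (E : ∀ i, ℕ∞ → X i) (k : ι → ℕ) (p : A × WW) :
    BoxProd X := Function.update (fun i => E i (p.2 (k i))) i₀ (e p.1)

variable {i₀ : ι} {e : A → X i₀} {E : ∀ i, ℕ∞ → X i} {k : ι → ℕ}

omit [∀ i, TopologicalSpace (X i)] [TopologicalSpace A] in
lemma Phi_self (p : A × WW) : Phi i₀ e E k p i₀ = e p.1 := by
  classical
  exact Function.update_self _ _ _

omit [∀ i, TopologicalSpace (X i)] [TopologicalSpace A] in
lemma Phi_ne (p : A × WW) {i : ι} (hi : i ≠ i₀) : Phi i₀ e E k p i = E i (p.2 (k i)) := by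
  classical
  exact Function.update_of_ne hi _ _

variable {j : ℕ → ι}

lemma Phi_continuous (he : Continuous e) (hj : ∀ n, j n ≠ i₀) (hk : ∀ n, k (j n) = n)
    (hE1 : ∀ n, Continuous (E (j n))) (hE2 : ∀ i, i ∉ range j → ∀ a b, E i a = E i b) :
    Continuous (Phi i₀ e E k) := by
  classical
  apply continuous_generateFrom_iff.2
  rintro _ ⟨U, hU, rfl⟩
  by_cases hall : ∀ i, i ≠ i₀ → i ∉ range j → ∀ a, E i a ∈ U i
  · have h1 : Phi i₀ e E k ⁻¹' {x : BoxProd X | ∀ i, x i ∈ U i} =
        (e ⁻¹' U i₀) ×ˢ {x : WW | ∀ n, x n ∈ E (j n) ⁻¹' U (j n)} := by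
      ext p
      simp only [mem_preimage, mem_ofPred_eq, mem_prod]
      constructor
      · intro hp
        refine ⟨by have := hp i₀; rwa [Phi_self] at this, fun n => ?_⟩
        have := hp (j n)
        rwa [Phi_ne p (hj n), hk] at this
      · rintro ⟨h2, h3⟩ i
        by_cases hi : i = i₀
        · subst hi
          rw [Phi_self]; exact h2
        · rw [Phi_ne p hi]
          by_cases hij : i ∈ range j
          · obtain ⟨n, rfl⟩ := hij
            rw [hk]; exact h3 n
          · exact hall i hi hij _
    rw [h1]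
    apply ((hU i₀).preimage he).prod
    exact isOpen_box fun n => (hU (j n)).preimage (hE1 n)
  · push Not at hall
    obtain ⟨i, hi, hij, a, ha⟩ := hall
    have h1 : Phi i₀ e E k ⁻¹' {x : BoxProd X | ∀ i, x i ∈ U i} = ∅ := by
      rw [eq_empty_iff_forall_notMem]
      intro p hp
      have := hp i
      rw [Phi_ne p hi] at this
      rw [hE2 i hij a (p.2 (k i))] at ha
      exact ha this
    rw [h1]
    exact isOpen_empty

lemma Phi_injective (he : Function.Injective e) (hj : ∀ n, j n ≠ i₀) (hk : ∀ n, k (j n) = n)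
    (hE1 : ∀ n, Function.Injective (E (j n))) : Function.Injective (Phi i₀ e E k) := by
  rintro ⟨a, x⟩ ⟨b, y⟩ h
  have h1 : a = b := by
    have := congrFun h i₀
    rw [Phi_self, Phi_self] at this
    exact he this
  have h2 : x = y := by
    funext n
    have := congrFun h (j n)
    rw [Phi_ne _ (hj n), Phi_ne _ (hj n), hk] at this
    exact hE1 n this
  rw [h1, h2]

lemma Phi_isInducing (he : IsInducing e) (hj : ∀ n, j n ≠ i₀) (hk : ∀ n, k (j n) = n)
    (hE1 : ∀ n, IsInducing (E (j n))) (hE2 : ∀ i, i ∉ range j → ∀ a b, E i a = E i b) :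
    IsInducing (Phi i₀ e E k) := by
  classical
  have hcont := Phi_continuous (e := e) (E := E) (k := k) he.continuous hj hk
    (fun n => (hE1 n).continuous) hE2
  rw [isInducing_iff_nhds]
  intro p
  apply le_antisymm (hcont.tendsto p).le_comap
  intro s hs
  obtain ⟨s', hs', hs'o, hps'⟩ := mem_nhds_iff.1 hs
  obtain ⟨u, v, hu, hv, hpu, hpv, huv⟩ := isOpen_prod_iff.mp hs'o p.1 p.2 hps'
  obtain ⟨V, hV, hpV, hVv⟩ := exists_box hv hpv
  obtain ⟨u', hu', huu'⟩ := he.isOpen_iff.1 hu
  have hext : ∀ n, ∃ O : Set (X (j n)), IsOpen O ∧ E (j n) ⁻¹' O = V n := by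
    intro n
    exact (hE1 n).isOpen_iff.1 (hV n)
  choose O hO1 hO2 using hext
  have hU : ∀ i, ∃ U : Set (X i), IsOpen U ∧ (∀ n, j n = i → E i ⁻¹' U = V n) ∧
      (i ∉ range j → U = univ) := by
    intro i
    by_cases hi : i ∈ range j
    · obtain ⟨n, rfl⟩ := hi
      refine ⟨O n, hO1 n, ?_, fun h => absurd (mem_range_self n) h⟩
      intro m hm
      have : m = n := by rw [← hk m, hm, hk n]
      rw [this]; exact hO2 n
    · exact ⟨univ, isOpen_univ, fun n hn => absurd ⟨n, hn⟩ hi, fun _ => rfl⟩
  choose U hU1 hU2 hU3 using hU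
  refine mem_comap.2 ⟨{x : BoxProd X | ∀ i, x i ∈ Function.update U i₀ u' i}, ?_, ?_⟩
  · apply IsOpen.mem_nhds
    · apply isOpen_box
      intro i
      by_cases hi : i = i₀
      · subst hi; rw [Function.update_self]; exact hu'
      · rw [Function.update_of_ne hi]; exact hU1 i
    · intro i
      by_cases hi : i = i₀
      · subst hi
        rw [Function.update_self, Phi_self]
        rw [← huu'] at hpu
        exact hpu
      · rw [Function.update_of_ne hi, Phi_ne _ hi]
        by_cases hij : i ∈ range j
        · obtain ⟨n, rfl⟩ := hij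
          have h1 := hpV n
          rw [← hU2 (j n) n rfl] at h1
          rw [hk]; exact h1
        · rw [hU3 i hij]; exact mem_univ _
  · intro q hq
    have hq' : ∀ i, Phi i₀ e E k q i ∈ Function.update U i₀ u' i := hq
    apply hs'
    have h1 : q = (q.1, q.2) := rfl
    rw [h1]
    apply huv
    refine ⟨?_, hVv ?_⟩
    · have := hq' i₀
      rw [Function.update_self, Phi_self] at this
      rw [← huu']; exact this
    · intro n
      have := hq' (j n)
      rw [Function.update_of_ne (hj n), Phi_ne _ (hj n), hk] at this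
      rw [← hU2 (j n) n rfl]
      exact this

lemma Phi_isClosed_range [∀ i, T1Space (X i)] (he : IsClosed (range e)) (hj : ∀ n, j n ≠ i₀)
    (hk : ∀ n, k (j n) = n) (hE1 : ∀ n, IsClosed (range (E (j n))))
    (hE2 : ∀ i, i ∉ range j → ∀ a b, E i a = E i b) : IsClosed (range (Phi i₀ e E k)) := by
  classical
  have h1 : range (Phi i₀ e E k) =
      {x : BoxProd X | ∀ i, x i ∈ Function.update (fun i => range (E i)) i₀ (range e) i} := by
    ext y
    constructor
    · rintro ⟨p, rfl⟩ i
      by_cases hi : i = i₀
      · subst hi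
        rw [Function.update_self, Phi_self]
        exact mem_range_self _
      · rw [Function.update_of_ne hi, Phi_ne _ hi]
        exact mem_range_self _
    · intro hy
      have h2 := hy i₀
      rw [Function.update_self] at h2
      obtain ⟨a, ha⟩ := h2
      have h3 : ∀ n, ∃ c, E (j n) c = y (j n) := by
        intro n
        have := hy (j n)
        rw [Function.update_of_ne (hj n)] at this
        exact this
      choose x hx using h3
      refine ⟨(a, x), ?_⟩
      funext i
      by_cases hi : i = i₀
      · subst hi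
        rw [Phi_self]; exact ha
      · rw [Phi_ne _ hi]
        by_cases hij : i ∈ range j
        · obtain ⟨n, rfl⟩ := hij
          show E (j n) (x (k (j n))) = y (j n)
          rw [hk]; exact hx n
        · have := hy i
          rw [Function.update_of_ne hi] at this
          obtain ⟨c, hc⟩ := this
          rw [← hc]
          exact hE2 i hij _ _
  rw [h1]
  apply isClosed_box
  intro i
  by_cases hi : i = i₀
  · subst hi; rw [Function.update_self]; exact he
  · rw [Function.update_of_ne hi]
    by_cases hij : i ∈ range j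
    · obtain ⟨n, rfl⟩ := hij
      exact hE1 n
    · have : range (E i) = {E i 0} := by
        ext c
        constructor
        · rintro ⟨a, rfl⟩
          exact hE2 i hij a 0
        · rintro rfl
          exact mem_range_self _
      rw [this]
      exact isClosed_singleton

end embedding

/-- A nondiscrete metrizable space contains a closed copy of `ω + 1`. -/
lemma exists_isClosedEmbedding {Y : Type v} [TopologicalSpace Y] [TopologicalSpace.MetrizableSpace Y]
    (h : ¬ DiscreteTopology Y) : ∃ E : ℕ∞ → Y, IsClosedEmbedding E := by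
  classical
  letI := TopologicalSpace.metrizableSpaceMetric Y
  have h1 : ∃ x : Y, ∀ r : ℝ, 0 < r → ∃ y, y ≠ x ∧ dist y x < r := by
    by_contra hcon
    push Not at hcon
    apply h
    rw [discreteTopology_iff_isOpen_singleton]
    intro x
    obtain ⟨r, hr, hx⟩ := hcon x
    rw [Metric.isOpen_iff]
    rintro y rfl
    refine ⟨r, hr, ?_⟩
    intro z hz
    by_contra hzy
    exact absurd (hx z hzy) (not_le.2 hz)
  obtain ⟨x, hx⟩ := h1
  have hx' : ∀ r : ℝ, ∃ y, 0 < r → y ≠ x ∧ dist y x < r := by
    intro r
    by_cases hr : 0 < r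
    · obtain ⟨y, hy⟩ := hx r hr
      exact ⟨y, fun _ => hy⟩
    · exact ⟨x, fun h => absurd h hr⟩
  choose f hf using hx'
  let g : ℕ → Y := fun n => Nat.rec (f 1) (fun n y => f (min (dist y x) (1 / ((n : ℝ) + 2)))) n
  have hg0 : ∀ n, g n ≠ x := by
    intro n
    induction n with
    | zero => exact (hf 1 one_pos).1
    | succ n ih =>
      have h2 : 0 < min (dist (g n) x) (1 / ((n : ℝ) + 2)) :=
        lt_min (dist_pos.2 ih) (by positivity)
      exact (hf _ h2).1
  have hg1 : ∀ n, dist (g (n + 1)) x < dist (g n) x := by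
    intro n
    have h2 : 0 < min (dist (g n) x) (1 / ((n : ℝ) + 2)) :=
      lt_min (dist_pos.2 (hg0 n)) (by positivity)
    exact lt_of_lt_of_le (hf _ h2).2 (min_le_left _ _)
  have hg2 : ∀ n, dist (g n) x < 1 / ((n : ℝ) + 1) := by
    intro n
    cases n with
    | zero =>
      have := (hf 1 one_pos).2
      simpa [g] using this
    | succ n =>
      have h2 : 0 < min (dist (g n) x) (1 / ((n : ℝ) + 2)) :=
        lt_min (dist_pos.2 (hg0 n)) (by positivity)
      have h3 := lt_of_lt_of_le (hf _ h2).2 (min_le_right _ _)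
      have h4 : (n : ℝ) + 2 = ((n + 1 : ℕ) : ℝ) + 1 := by push_cast; ring
      rw [← h4]
      exact h3
  have hanti : StrictAnti fun n => dist (g n) x := strictAnti_nat_of_succ_lt hg1
  have hinj : Function.Injective g := by
    intro a b hab
    exact hanti.injective (by simp only [hab])
  let E : ℕ∞ → Y := fun a => if a = ⊤ then x else g a.toNat
  have hEtop : E ⊤ = x := if_pos rfl
  have hEn : ∀ n : ℕ, E (n : ℕ∞) = g n := by
    intro n
    show (if (n : ℕ∞) = ⊤ then x else g ((n : ℕ∞).toNat)) = g n
    rw [if_neg (ENat.natCast_ne_top n), ENat.toNat_natCast]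
  have hEinj : Function.Injective E := by
    intro a b hab
    induction a using ENat.recTopCoe with
    | top =>
      induction b using ENat.recTopCoe with
      | top => rfl
      | coe n =>
        rw [hEtop, hEn] at hab
        exact absurd hab.symm (hg0 n)
    | coe m =>
      induction b using ENat.recTopCoe with
      | top =>
        rw [hEtop, hEn] at hab
        exact absurd hab (hg0 m)
      | coe n =>
        rw [hEn, hEn] at hab
        rw [hinj hab]
  have hEcont : Continuous E := by
    rw [continuous_iff_continuousAt]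
    intro a
    induction a using ENat.recTopCoe with
    | top =>
      unfold ContinuousAt
      rw [hEtop, Metric.tendsto_nhds]
      intro ε hε
      obtain ⟨N, hN⟩ := exists_nat_one_div_lt hε
      have h2 : Ioi (N : ℕ∞) ∈ 𝓝 (⊤ : ℕ∞) := Ioi_mem_nhds (ENat.natCast_lt_top N)
      filter_upwards [h2] with b hb
      induction b using ENat.recTopCoe with
      | top => rw [hEtop, dist_self]; exact hε
      | coe n =>
        rw [hEn]
        have h3 : N < n := by
          have h4 : (N : ℕ∞) < (n : ℕ∞) := hb
          exact_mod_cast h4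
        refine lt_trans (hg2 n) (lt_trans ?_ hN)
        apply one_div_lt_one_div_of_lt (by positivity)
        have : (N : ℝ) < n := by exact_mod_cast h3
        linarith
    | coe n =>
      have h2 : {(n : ℕ∞)} ∈ 𝓝 (n : ℕ∞) :=
        (ENat.isOpen_singleton (ENat.natCast_ne_top n)).mem_nhds rfl
      apply ContinuousAt.congr (f := fun _ => E n) continuousAt_const
      filter_upwards [h2] with b hb
      rw [mem_singleton_iff.1 hb]
  exact ⟨E, hEcont.isClosedEmbedding hEinj⟩

end Pool.Agent.J6H72.BX
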