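import Pool.Agent.J6H72.BX.Emb

open Set Topology Filter

namespace Pool.Agent.J6H72.BX

universe u v w

/-- paracompact spaces are metacompact -/
lemma metacompact_of_paracompact {T : Type w} [TopologicalSpace T] [ParacompactSpace T] :
    Metacompact T := by
  classical
  rintro 𝒰 ⟨h1, h2⟩
  obtain ⟨v, hv1, hv2, hv3, hv4⟩ := precise_refinement (fun U : 𝒰 => (U : Set T))
    (fun U => h1 U U.2) (by rw [← sUnion_eq_iUnion]; exact h2)
  refine ⟨range v, ⟨?_, ?_⟩, ?_, ?_⟩
  · rintro _ ⟨a, rfl⟩
    exact hv1 a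
  · rw [sUnion_range]; exact hv2
  · rintro _ ⟨a, rfl⟩
    exact ⟨a, a.2, hv4 a⟩
  · intro x
    apply ((hv3.point_finite x).image v).subset
    rintro _ ⟨⟨a, rfl⟩, hx⟩
    exact ⟨a, hx, rfl⟩

lemma Metacompact.sub {T : Type w} [TopologicalSpace T] (h : Metacompact T) :
    Submetacompact T := by
  intro 𝒰 h𝒰
  obtain ⟨𝒱, h1, h2, h3⟩ := h 𝒰 h𝒰
  exact ⟨fun _ => 𝒱, fun _ => ⟨h1, h2⟩, fun x => ⟨0, h3 x⟩⟩

lemma metacompact_of_metrizable {T : Type w} [TopologicalSpace T]
    [TopologicalSpace.MetrizableSpace T] : Metacompact T := by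
  let _ := TopologicalSpace.metrizableSpaceMetric T
  exact metacompact_of_paracompact

/-- metrizable spaces are subparacompact -/
lemma subparacompact_of_metrizable {T : Type w} [TopologicalSpace T]
    [TopologicalSpace.MetrizableSpace T] : Subparacompact T := by
  classical
  let _ := TopologicalSpace.metrizableSpaceMetric T
  rintro 𝒰 ⟨h1, h2⟩
  obtain ⟨v, hv1, hv2, hv3, hv4⟩ := precise_refinement (fun U : 𝒰 => (U : Set T))
    (fun U => h1 U U.2) (by rw [← sUnion_eq_iUnion]; exact h2)
  obtain ⟨c, hc1, hc2, hc3⟩ := exists_iUnion_eq_closed_subset hv1 hv3.point_finite hv2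
  have hclf : LocallyFinite c := hv3.subset hc3
  -- points which lie in exactly the sets `c a`, `a ∈ s`, and far from the others
  let K : Finset 𝒰 → ℕ → Set T := fun s m =>
    {x | (∀ a ∈ s, x ∈ c a) ∧ ∀ y a, a ∉ s → y ∈ c a → 1 / ((m : ℝ) + 1) ≤ dist x y}
  refine ⟨fun N => {F | ∃ s : Finset 𝒰, s.Nonempty ∧ s.card = N.unpair.1 ∧ F = K s N.unpair.2},
    ?_, ?_, ?_, ?_⟩
  · rintro N _ ⟨s, -, -, rfl⟩
    have h3 : K s N.unpair.2 = (⋂ a ∈ s, c a) ∩ ⋂ y, ⋂ a, ⋂ (_ : a ∉ s), ⋂ (_ : y ∈ c a),
        {x | 1 / ((N.unpair.2 : ℝ) + 1) ≤ dist x y} := by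
      ext x
      simp only [K, mem_ofPred_eq, mem_inter_iff, mem_iInter]
    rw [h3]
    apply IsClosed.inter
    · exact isClosed_biInter fun a _ => hc2 a
    · refine isClosed_iInter fun y => isClosed_iInter fun a => isClosed_iInter fun _ =>
        isClosed_iInter fun _ => ?_
      exact isClosed_le continuous_const (continuous_id.dist continuous_const)
  · intro N x
    refine ⟨Metric.ball x (1 / ((N.unpair.2 : ℝ) + 1) / 2), Metric.ball_mem_nhds x (by positivity),
      ?_⟩
    rintro _ ⟨⟨s, -, hs, rfl⟩, ⟨p, hp, hpx⟩⟩ _ ⟨⟨t, -, ht, rfl⟩, ⟨q, hq, hqx⟩⟩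
    have hst : s = t := by
      by_contra hne
      have h4 : ∃ a, a ∈ t ∧ a ∉ s := by
        by_contra hcon
        push Not at hcon
        apply hne
        exact (Finset.eq_of_subset_of_card_le (fun a ha => hcon a ha) (by omega)).symm
      obtain ⟨a, hat, has⟩ := h4
      have h5 := hp.2 q a has (hq.1 a hat)
      have h6 : dist p q ≤ dist p x + dist q x := dist_triangle_right p q x
      rw [Metric.mem_ball] at hpx hqx
      linarith
    rw [hst]
  · rintro N _ ⟨s, ⟨a, ha⟩, -, rfl⟩
    exact ⟨a, a.2, fun x hx => hv4 a (hc3 a (hx.1 a ha))⟩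
  · rw [eq_univ_iff_forall]
    intro x
    have hfin := hclf.point_finite x
    let s : Finset 𝒰 := hfin.toFinset
    have hs : ∀ a, a ∈ s ↔ x ∈ c a := by
      intro a
      simp [s]
    have hsne : s.Nonempty := by
      have : x ∈ ⋃ a, c a := by rw [hc1]; trivial
      obtain ⟨a, ha⟩ := mem_iUnion.1 this
      exact ⟨a, (hs a).2 ha⟩
    have hB : IsClosed (⋃ a : {a : 𝒰 // a ∉ s}, c a) := by
      apply LocallyFinite.isClosed_iUnion
      · exact hclf.comp_injective Subtype.val_injective
      · intro a; exact hc2 a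
    have hxB : x ∈ (⋃ a : {a : 𝒰 // a ∉ s}, c a)ᶜ := by
      intro hx
      obtain ⟨a, ha⟩ := mem_iUnion.1 hx
      exact a.2 ((hs a).2 ha)
    obtain ⟨ε, hε, hball⟩ := Metric.isOpen_iff.1 hB.isOpen_compl x hxB
    obtain ⟨m, hm⟩ := exists_nat_one_div_lt hε
    refine mem_iUnion.2 ⟨Nat.pair s.card m, K s m, ⟨s, hsne, ?_, ?_⟩, ?_⟩
    · rw [Nat.unpair_pair]
    · rw [Nat.unpair_pair]
    · refine ⟨fun a ha => (hs a).1 ha, ?_⟩
      intro y a ha hy
      by_contra hcon
      push Not at hcon
      have h7 : y ∈ Metric.ball x ε := by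
        rw [Metric.mem_ball, dist_comm]
        exact hcon.trans hm
      exact hball h7 (mem_iUnion.2 ⟨⟨a, ha⟩, hy⟩)

section

variable {ι : Type u} {X : ι → Type v} [∀ i, TopologicalSpace (X i)]

/-- A box product of metrizable spaces with only finitely many nondiscrete factors is
metrizable. -/
lemma metrizable_of_finite [∀ i, TopologicalSpace.MetrizableSpace (X i)]
    (h : {i | ¬ DiscreteTopology (X i)}.Finite) :
    TopologicalSpace.MetrizableSpace (BoxProd X) := by
  classical
  let F : Set ι := {i | ¬ DiscreteTopology (X i)}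
  have : Finite F := h.to_subtype
  have := Fintype.ofFinite F
  let D : Type (max u v) := ∀ i : {i // i ∉ F}, X i
  let _ : TopologicalSpace D := ⊥
  have : DiscreteTopology D := ⟨rfl⟩
  let Ψ : BoxProd X → (∀ i : F, X i) × D := fun x => (fun i => x i, fun i => x i)
  have hdisc : ∀ i : ι, i ∉ F → ∀ s : Set (X i), IsOpen s := by
    intro i hi s
    have : DiscreteTopology (X i) := by
      by_contra hcon
      exact hi hcon
    exact isOpen_discrete s
  have hcont : Continuous Ψ := by
    apply Continuous.prodMk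
    · apply continuous_pi
      intro i
      rw [continuous_def]
      intro s hs
      have h3 : (fun x : BoxProd X => x (i : ι)) ⁻¹' s =
          {x : BoxProd X | ∀ k, x k ∈ Function.update (fun k => (univ : Set (X k))) (i : ι) s k} := by
        ext x
        simp only [mem_preimage, mem_ofPred_eq]
        constructor
        · intro hx k
          by_cases hk : k = i
          · subst hk; rw [Function.update_self]; exact hx
          · rw [Function.update_of_ne hk]; exact mem_univ _
        · intro hx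
          have := hx i
          rwa [Function.update_self] at this
      rw [h3]
      apply isOpen_box
      intro k
      by_cases hk : k = i
      · subst hk; rw [Function.update_self]; exact hs
      · rw [Function.update_of_ne hk]; exact isOpen_univ
    · rw [continuous_def]
      intro s _
      rw [isOpen_iff_forall_mem_open]
      intro x hx
      refine ⟨{y : BoxProd X | ∀ k, y k ∈ (if k ∈ F then univ else {x k} : Set (X k))}, ?_, ?_, ?_⟩
      · intro y hy
        have h4 : (fun i : {i // i ∉ F} => y i) = (fun i : {i // i ∉ F} => x i) := by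
          funext i
          have := hy i
          rw [if_neg i.2] at this
          exact this
        show (fun i : {i // i ∉ F} => y i) ∈ s
        rw [h4]
        exact hx
      · apply isOpen_box
        intro k
        by_cases hk : k ∈ F
        · rw [if_pos hk]; exact isOpen_univ
        · rw [if_neg hk]; exact hdisc k hk _
      · intro k
        by_cases hk : k ∈ F
        · rw [if_pos hk]; exact mem_univ _
        · rw [if_neg hk]; exact mem_singleton _
  have hind : IsInducing Ψ := by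
    rw [isInducing_iff_nhds]
    intro p
    apply le_antisymm (hcont.tendsto p).le_comap
    intro s hs
    obtain ⟨s', hs', hs'o, hps'⟩ := mem_nhds_iff.1 hs
    obtain ⟨U, hU, hpU, hUs⟩ := exists_box hs'o hps'
    refine mem_comap.2 ⟨(Set.pi univ fun i : F => U i) ×ˢ {(fun i => p i : D)}, ?_, ?_⟩
    · apply IsOpen.mem_nhds
      · apply IsOpen.prod
        · exact isOpen_set_pi finite_univ fun i _ => hU i
        · exact isOpen_discrete _
      · exact ⟨fun i _ => hpU i, rfl⟩
    · rintro y ⟨hy1, hy2⟩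
      apply hs'
      apply hUs
      intro k
      by_cases hk : k ∈ F
      · exact hy1 ⟨k, hk⟩ (mem_univ _)
      · have h5 : (fun i : {i // i ∉ F} => y i) = (fun i : {i // i ∉ F} => p i) := hy2
        have h6 := congrFun h5 ⟨k, hk⟩
        have h7 : y k = p k := h6
        rw [h7]
        exact hpU k
  have hinj : Function.Injective Ψ := by
    intro x y hxy
    have h1 : (fun i : F => x i) = (fun i : F => y i) := (Prod.ext_iff.1 hxy).1
    have h2 : (fun i : {i // i ∉ F} => x i) = (fun i : {i // i ∉ F} => y i) :=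
      (Prod.ext_iff.1 hxy).2
    funext k
    by_cases hk : k ∈ F
    · exact congrFun h1 ⟨k, hk⟩
    · exact congrFun h2 ⟨k, hk⟩
  exact (IsEmbedding.mk hind hinj).metrizableSpace

/-! ### the negative results -/

lemma part1' : ¬ CountablyOrthocompact ((ℕ → ℕ) × WW) := by
  intro h
  apply Pool.Agent.BoxOrtho.part1
  intro 𝒰 h1 h2 h3
  obtain ⟨𝒱, h4, h5, h6⟩ := h 𝒰 h1 ⟨h2, h3⟩
  exact ⟨𝒱, h4.1, h4.2, h5, h6⟩

lemma part2' : ¬ CountablyOrthocompact (Pool.Agent.BoxOrtho.Sset : Set WW) := by
  intro h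
  apply Pool.Agent.BoxOrtho.part2
  intro 𝒰 h1 h2 h3
  obtain ⟨𝒱, h4, h5, h6⟩ := h 𝒰 h1 ⟨h2, h3⟩
  exact ⟨𝒱, h4.1, h4.2, h5, h6⟩

/-- The data needed for the embedding. -/
lemma exists_data [∀ i, TopologicalSpace.MetrizableSpace (X i)] [∀ i, Nonempty (X i)] (i₀ : ι)
    (h : {i | i ≠ i₀ ∧ ¬ DiscreteTopology (X i)}.Infinite) :
    ∃ (j : ℕ → ι) (k : ι → ℕ) (E : ∀ i, ℕ∞ → X i), (∀ n, j n ≠ i₀) ∧ (∀ n, k (j n) = n) ∧
      (∀ n, IsClosedEmbedding (E (j n))) ∧ ∀ i, i ∉ range j → ∀ a b, E i a = E i b := by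
  classical
  let j' := h.natEmbedding
  let j : ℕ → ι := fun n => (j' n : ι)
  have hj : Function.Injective j := fun a b hab => j'.injective (Subtype.ext hab)
  have hE : ∀ i, ∃ E : ℕ∞ → X i, (i ∈ range j → IsClosedEmbedding E) ∧
      (i ∉ range j → ∀ a b, E a = E b) := by
    intro i
    by_cases hi : i ∈ range j
    · obtain ⟨n, rfl⟩ := hi
      obtain ⟨E, hE⟩ := exists_isClosedEmbedding (j' n).2.2
      exact ⟨E, fun _ => hE, fun h => absurd (mem_range_self n) h⟩
    · exact ⟨fun _ => Classical.arbitrary _, fun h => absurd h hi, fun _ _ _ => rfl⟩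
  choose E hE1 hE2 using hE
  exact ⟨j, Function.invFun j, E, fun n => (j' n).2.1, Function.leftInverse_invFun hj,
    fun n => hE1 _ (mem_range_self n), hE2⟩

theorem closedPart [∀ i, TopologicalSpace.MetrizableSpace (X i)] [∀ i, Nonempty (X i)] (i₀ : ι)
    (e : (ℕ → ℕ) → X i₀) (he : IsClosedEmbedding e)
    (h : {i | i ≠ i₀ ∧ ¬ DiscreteTopology (X i)}.Infinite) :
    ¬ CountablyOrthocompact (BoxProd X) := by
  obtain ⟨j, k, E, hj, hk, hE1, hE2⟩ := exists_data i₀ h
  intro hco
  apply part1'
  apply hco.of_isClosedEmbedding (φ := Phi i₀ e E k)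
  refine ⟨⟨?_, ?_⟩, ?_⟩
  · exact Phi_isInducing he.isInducing hj hk (fun n => (hE1 n).isInducing) hE2
  · exact Phi_injective he.injective hj hk (fun n => (hE1 n).injective)
  · exact Phi_isClosed_range he.isClosed_range hj hk (fun n => (hE1 n).isClosed_range) hE2

theorem subspacePart [∀ i, TopologicalSpace.MetrizableSpace (X i)] [∀ i, Nonempty (X i)]
    (h : {i | ¬ DiscreteTopology (X i)}.Infinite) :
    ∃ S : Set (BoxProd X), ¬ CountablyOrthocompact S := by
  obtain ⟨i₀, hi₀⟩ := h.nonempty
  have h' : {i | i ≠ i₀ ∧ ¬ DiscreteTopology (X i)}.Infinite := by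
    have h1 : {i | i ≠ i₀ ∧ ¬ DiscreteTopology (X i)} = {i | ¬ DiscreteTopology (X i)} \ {i₀} := by
      ext i
      simp only [mem_ofPred_eq, Set.mem_sdiff, mem_singleton_iff]
      exact and_comm
    rw [h1]
    exact h.sdiff (finite_singleton i₀)
  obtain ⟨j, k, E, hj, hk, hE1, hE2⟩ := exists_data i₀ h'
  let e : PUnit.{1} → X i₀ := fun _ => Classical.arbitrary _
  have he : IsClosedEmbedding e :=
    (continuous_const).isClosedEmbedding (fun a b _ => Subsingleton.elim a b)
  have hΦ : IsEmbedding (Phi i₀ e E k) :=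
    ⟨Phi_isInducing he.isInducing hj hk (fun n => (hE1 n).isInducing) hE2,
      Phi_injective he.injective hj hk (fun n => (hE1 n).injective)⟩
  let T : Set WW := Pool.Agent.BoxOrtho.Sset
  have hφ : IsEmbedding (fun s : T => Phi i₀ e E k (PUnit.unit, (s : WW))) := by
    apply hΦ.comp
    apply IsEmbedding.comp (g := fun x : WW => ((PUnit.unit, x) : PUnit.{1} × WW)) ?_
      IsEmbedding.subtypeVal
    exact isEmbedding_prodMkRight _
  refine ⟨range fun s : T => Phi i₀ e E k (PUnit.unit, (s : WW)), ?_⟩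
  intro hco
  apply part2'
  exact hco.of_isClosedEmbedding (hφ.toHomeomorph.isClosedEmbedding)

end

end Pool.Agent.J6H72.BX
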